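import Pool.Agent.H96.AL.Targets2

/-!
# EX: the fundamental inequality at a foot on an extremal subset
-/

open Topology Set Filter Real

namespace Pool.Agent.H58.AL

open Pool.Agent.H96.AL

theorem ex : T_EX := by
  intro X _ hgeo hcb E hE z p hp y
  by_cases hz : z ∈ E
  · have h1 := hp.2 z hz
    rw [dist_self] at h1
    have h2 : z = p := dist_le_zero.1 h1
    rw [← h2, dist_self, cosh_zero, one_mul]
  have hcrit : Critical z p := by
    refine hE.2 z hz p hp.1 ?_
    have h1 : IsMinOn (fun x => dist z x) E p := fun e he => hp.2 e he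
    exact h1.localize
  rcases eq_or_ne p y with rfl | hpy
  · rw [dist_self, cosh_zero, mul_one]
  obtain ⟨η, h0, h1, h2⟩ := hgeo p y
  set l := dist p y with hl
  set a := dist z p with ha
  set b := dist z y with hb
  have hl0 : 0 < l := dist_pos.2 hpy
  have ha0 : 0 ≤ a := dist_nonneg
  have key : ∀ ε > 0, cosh b ≤ ε * (sinh l * sinh a) + cosh a * cosh l := by
    intro ε hε
    set F : ℝ → ℝ := fun s => sinh l * cosh (a + ε * s) - sinh (l - s) * cosh a with hF
    have hd : HasDerivAt F (sinh l * (sinh (a + ε * 0) * (ε * 1)) - (cosh (l - 0) * (-1)) * cosh a)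
        0 := by
      have e1 : HasDerivAt (fun s : ℝ => a + ε * s) (ε * 1) 0 :=
        ((hasDerivAt_id (0 : ℝ)).const_mul ε).const_add a
      have e2 : HasDerivAt (fun s : ℝ => l - s) (-1) 0 := (hasDerivAt_id (0 : ℝ)).const_sub l
      exact (e1.cosh.const_mul (sinh l)).sub (e2.sinh.mul_const (cosh a))
    have hd' := (hasDerivAt_iff_tendsto_slope_zero.1 hd).mono_left
      (nhdsWithin_mono (0 : ℝ) (s := Ioi 0) (fun s (hs : 0 < s) => hs.ne'))
    have hlim : cosh b ≤ sinh l * (sinh (a + ε * 0) * (ε * 1)) -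
        (cosh (l - 0) * (-1)) * cosh a := by
      refine ge_of_tendsto hd' ?_
      obtain ⟨δ, hδ, hδ2⟩ := Metric.eventually_nhds_iff.1 (hcrit ε hε)
      filter_upwards [Ioo_mem_nhdsGT (lt_min hl0 hδ)] with s hs
      have hs0 : 0 < s := hs.1
      have hsl : s < l := lt_of_lt_of_le hs.2 (min_le_left _ _)
      have hsδ : s < δ := lt_of_lt_of_le hs.2 (min_le_right _ _)
      have d1 : dist p (η s) = s := by
        have := h2 0 ⟨le_rfl, hl0.le⟩ s ⟨hs0.le, hsl.le⟩
        rw [h0] at this
        rw [this, zero_sub, abs_neg, abs_of_pos hs0]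
      have d2 : dist (η s) y = l - s := by
        have := h2 s ⟨hs0.le, hsl.le⟩ l ⟨hl0.le, le_rfl⟩
        rw [h1] at this
        rw [this, abs_sub_comm, abs_of_pos (by linarith)]
      have d3 : dist z (η s) ≤ a + ε * s := by
        have := hδ2 (y := η s) (by rw [dist_comm, d1]; exact hsδ)
        rwa [dist_comm (η s) p, d1] at this
      have hc := hcb z p y (η s) (by unfold Pool.Agent.H96.AL.Btw; rw [d1, d2]; ring)
      rw [d1, d2] at hc
      have hm : cosh (dist z (η s)) ≤ cosh (a + ε * s) := by
        rw [cosh_le_cosh, abs_of_nonneg dist_nonneg]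
        exact d3.trans (le_abs_self _)
      have hsh : 0 ≤ sinh l := sinh_nonneg_iff.2 hl0.le
      have hss : s ≤ sinh s := self_le_sinh_iff.2 hs0.le
      have hcb0 : 0 ≤ cosh b := (cosh_pos b).le
      have hF0 : F 0 = 0 := by
        rw [hF]
        simp
      rw [zero_add, hF0, sub_zero, smul_eq_mul]
      have hmain : s * cosh b ≤ F s := by
        have m1 := mul_le_mul_of_nonneg_left hm hsh
        have m2 := mul_le_mul_of_nonneg_right hss hcb0
        have m3 : sinh (l - s) * cosh a + sinh s * cosh b ≤ sinh l * cosh (dist z (η s)) := hc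
        change s * cosh b ≤ sinh l * cosh (a + ε * s) - sinh (l - s) * cosh a
        linarith
      rw [inv_mul_eq_div, le_div_iff₀ hs0, mul_comm]
      exact hmain
    calc cosh b ≤ _ := hlim
      _ = ε * (sinh l * sinh a) + cosh a * cosh l := by
        rw [mul_zero, add_zero, sub_zero]
        ring
  have hsa : 0 ≤ sinh l * sinh a := mul_nonneg (sinh_nonneg_iff.2 hl0.le) (sinh_nonneg_iff.2 ha0)
  refine le_of_forall_pos_le_add fun e he => ?_
  have h3 := key (e / (sinh l * sinh a + 1)) (by positivity)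
  have h4 : e / (sinh l * sinh a + 1) * (sinh l * sinh a) ≤ e := by
    rw [div_mul_eq_mul_div, div_le_iff₀ (by positivity)]
    nlinarith
  linarith

end Pool.Agent.H58.AL
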