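import Pool.Agent.H96.AL.Targets2

/-!
# LP: the function `lp`
-/

open Topology Set Filter Real

namespace Pool.Agent.H58.AL

open Pool.Agent.H96.AL

/-- The logarithmic profile. -/
noncomputable def ph (ε x : ℝ) : ℝ := log (2 * x + ε ^ 2) / 2

theorem lp_eq {X : Type} [MetricSpace X] (E : Set X) (ε : ℝ) (z : X) :
    Pool.Agent.H96.AL.lp E ε z = ph ε (hd E z) := by
  unfold Pool.Agent.H96.AL.lp ph hd
  have : 2 * (Metric.infDist z E ^ 2 / 2) = Metric.infDist z E ^ 2 := by ring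
  rw [this]

theorem hd_nonneg {X : Type} [MetricSpace X] (E : Set X) (z : X) : 0 ≤ hd E z := by
  unfold hd
  positivity

theorem ph_mono {ε : ℝ} (hε : 0 < ε) {a b : ℝ} (ha : 0 ≤ a) (hab : a ≤ b) : ph ε a ≤ ph ε b := by
  unfold ph
  have h1 : 0 < 2 * a + ε ^ 2 := by positivity
  have h2 := log_le_log h1 (by linarith : 2 * a + ε ^ 2 ≤ 2 * b + ε ^ 2)
  linarith

theorem ph_sub_le' {ε : ℝ} (hε : 0 < ε) {a b : ℝ} (ha : 0 ≤ a) (hb : 0 ≤ b) :
    ph ε a - ph ε b ≤ (a - b) / (2 * b + ε ^ 2) := by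
  unfold ph
  have h1 : 0 < 2 * a + ε ^ 2 := by positivity
  have h2 : 0 < 2 * b + ε ^ 2 := by positivity
  have h3 := log_le_sub_one_of_pos (div_pos h1 h2)
  rw [log_div h1.ne' h2.ne'] at h3
  have h4 : (2 * a + ε ^ 2) / (2 * b + ε ^ 2) - 1 = 2 * ((a - b) / (2 * b + ε ^ 2)) := by
    field_simp
    ring
  linarith

theorem ph_sub_le {ε : ℝ} (hε : 0 < ε) {a b : ℝ} (hb : 0 ≤ b) (hab : b ≤ a) :
    ph ε a - ph ε b ≤ (a - b) / ε ^ 2 := by
  refine (ph_sub_le' hε (hb.trans hab) hb).trans ?_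
  refine div_le_div_of_nonneg_left (by linarith) (by positivity) (by linarith)

theorem ph_abs {ε : ℝ} (hε : 0 < ε) {a b : ℝ} (ha : 0 ≤ a) (hb : 0 ≤ b) :
    |ph ε a - ph ε b| ≤ |a - b| / ε ^ 2 := by
  rcases le_total a b with h | h
  · rw [abs_sub_comm, abs_sub_comm a b, abs_of_nonneg (sub_nonneg.2 (ph_mono hε ha h)),
      abs_of_nonneg (sub_nonneg.2 h)]
    exact ph_sub_le hε ha h
  · rw [abs_of_nonneg (sub_nonneg.2 (ph_mono hε hb h)), abs_of_nonneg (sub_nonneg.2 h)]
    exact ph_sub_le hε hb h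

theorem ph_concave {ε : ℝ} (hε : 0 < ε) {a b t : ℝ} (ha : 0 ≤ a) (hb : 0 ≤ b) (ht0 : 0 ≤ t)
    (ht1 : t ≤ 1) : (1 - t) * ph ε a + t * ph ε b ≤ ph ε ((1 - t) * a + t * b) := by
  unfold ph
  have h1 : 0 < 2 * a + ε ^ 2 := by positivity
  have h2 : 0 < 2 * b + ε ^ 2 := by positivity
  have h3 := strictConcaveOn_log_Ioi.concaveOn.2 (mem_Ioi.2 h1) (mem_Ioi.2 h2)
    (sub_nonneg.2 ht1) ht0 (by ring)
  simp only [smul_eq_mul] at h3
  have h4 : (1 - t) * (2 * a + ε ^ 2) + t * (2 * b + ε ^ 2) =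
      2 * ((1 - t) * a + t * b) + ε ^ 2 := by ring
  rw [h4] at h3
  linarith

theorem lp (hHD : T_HD) (hGD : T_GD) : T_LP := by
  intro X _ D hSp E hE hne ε hε hε1
  obtain ⟨h1, h2, h3⟩ := hHD X D hSp E hE.1 hne
  have h3 := h3 hE
  have h4 := (hGD X D hSp).2 E hE.1 hne
  have hD := hSp.one_le
  have hε2 : 0 < ε ^ 2 := by positivity
  refine ⟨?_, ?_, ?_, ?_⟩
  · intro x y
    rw [lp_eq, lp_eq]
    refine (ph_abs hε (hd_nonneg E x) (hd_nonneg E y)).trans ?_
    rw [div_mul_eq_mul_div]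
    exact div_le_div_of_nonneg_right (h2 x y) hε2.le
  · intro x y m t ht hxm hmy
    rw [lp_eq, lp_eq, lp_eq]
    have h5 := h1 x y m t ht hxm hmy
    have ha := hd_nonneg E x
    have hb := hd_nonneg E y
    have hm := hd_nonneg E m
    set a := hd E x
    set b := hd E y
    set c := hd E m
    have h6 := ph_concave hε ha hb ht.1 ht.2
    set S := (1 - t) * a + t * b with hS
    have hK : 0 ≤ cosh D / 2 * t * (1 - t) * dist x y ^ 2 := by
      have := sub_nonneg.2 ht.2
      have := ht.1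
      have := (cosh_pos D).le
      positivity
    have hKe : cosh D / ε ^ 2 / 2 * t * (1 - t) * dist x y ^ 2 =
        (cosh D / 2 * t * (1 - t) * dist x y ^ 2) / ε ^ 2 := by ring
    rw [hKe]
    rcases le_total S c with h7 | h7
    · have hS0 : 0 ≤ S := by
        have := sub_nonneg.2 ht.2
        have := ht.1
        positivity
      have h8 := ph_mono hε hS0 h7
      have h9 : 0 ≤ (cosh D / 2 * t * (1 - t) * dist x y ^ 2) / ε ^ 2 := by positivity
      linarith
    · have h8 := ph_sub_le hε hm h7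
      have h9 : (S - c) / ε ^ 2 ≤ (cosh D / 2 * t * (1 - t) * dist x y ^ 2) / ε ^ 2 := by
        refine div_le_div_of_nonneg_right ?_ hε2.le
        linarith
      linarith
  · intro E' hE' z p hp
    rw [lp_eq, lp_eq]
    have h5 := h4 E' hE' z p hp
    have ha := hd_nonneg E z
    have hb := hd_nonneg E p
    set a := hd E z
    set b := hd E p
    have hKe : cosh D ^ 2 / ε ^ 2 * dist z p ^ 2 = (cosh D ^ 2 * dist z p ^ 2) / ε ^ 2 := by ring
    rw [hKe]
    rcases le_total a b with h7 | h7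
    · have h8 := ph_mono hε ha h7
      have h9 : 0 ≤ (cosh D ^ 2 * dist z p ^ 2) / ε ^ 2 := by positivity
      linarith
    · have h8 := ph_sub_le hε hb h7
      have h9 : (a - b) / ε ^ 2 ≤ (cosh D ^ 2 * dist z p ^ 2) / ε ^ 2 := by
        refine div_le_div_of_nonneg_right ?_ hε2.le
        linarith
      linarith
  · intro z y η hη ε' hε'
    have hu : hd E z = Metric.infDist z E ^ 2 / 2 := rfl
    set u := Metric.infDist z E with hudef
    have h5 := h3 z y η hη (ε ^ 2) hε2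
    set K := (1 + D) * u ^ 2 + ε ^ 2 with hK
    have hK0 : 0 < K := by positivity
    have hC0 : 0 < 1 + D + ε' := by positivity
    have h6 : ∀ᶠ s in 𝓝[>] (0 : ℝ), 2 * s * K * (1 + D + ε') < ε ^ 2 := by
      have h7 : Tendsto (fun s : ℝ => 2 * s * K * (1 + D + ε')) (𝓝[>] 0)
          (𝓝 (2 * 0 * K * (1 + D + ε'))) := by
        refine Tendsto.mono_left ?_ nhdsWithin_le_nhds
        exact Continuous.tendsto (by fun_prop) 0
      have h8 : 2 * 0 * K * (1 + D + ε') = 0 := by ring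
      rw [h8] at h7
      exact h7.eventually (gt_mem_nhds hε2)
    filter_upwards [h5, h6, self_mem_nhdsWithin] with s hs1 hs2 hs3
    have hs0 : 0 < s := hs3
    rw [lp_eq, lp_eq]
    have ha := hd_nonneg E z
    have hb := hd_nonneg E (η (s * dist z y))
    set a := hd E z
    set b := hd E (η (s * dist z y))
    rcases le_total a b with h7 | h7
    · have h8 := ph_mono hε ha h7
      have h9 : s * (-(1 + D) - ε') ≤ 0 := by
        refine mul_nonpos_of_nonneg_of_nonpos hs0.le ?_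
        linarith
      linarith
    · have h8 := ph_sub_le' hε ha hb
      have hden : 0 < 2 * b + ε ^ 2 := by positivity
      have hab : a - b ≤ s * K := by
        rw [hK]
        linarith
      have h9 : (a - b) / (2 * b + ε ^ 2) ≤ s * (1 + D + ε') := by
        rw [div_le_iff₀ hden]
        refine hab.trans ?_
        rw [mul_assoc]
        refine mul_le_mul_of_nonneg_left ?_ hs0.le
        have e1 : u ^ 2 - 2 * (s * K) ≤ 2 * b := by linarith
        have e2 : (1 + D + ε') * (u ^ 2 - 2 * (s * K) + ε ^ 2) ≤ (1 + D + ε') * (2 * b + ε ^ 2) :=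
          mul_le_mul_of_nonneg_left (by linarith) hC0.le
        refine le_trans ?_ e2
        rw [hK] at hs2 ⊢
        have e3 : 0 ≤ ε' * u ^ 2 := by positivity
        have e4 : 0 ≤ ε' * ε ^ 2 := by positivity
        have e5 : 0 ≤ (D - 1) * ε ^ 2 := mul_nonneg (by linarith) hε2.le
        nlinarith [e3, e4, e5, hs2]
      linarith

end Pool.Agent.H58.AL
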