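import Pool.Agent.H96.AL.Targets2

/-!
# NE: gradient curves of the perturbed function do not enter the sets `E i`
-/

open Topology Set Filter Real

namespace Pool.Agent.H58.AL

open Pool.Agent.H96.AL

variable {X : Type} [MetricSpace X]

theorem lp_le {D : ℝ} (hD : 0 ≤ D) (hdiam : ∀ x y : X, dist x y ≤ D) {E : Set X} (hE : E.Nonempty)
    {ε : ℝ} (hε0 : 0 < ε) (hε1 : ε ≤ 1) (w : X) : lp E ε w ≤ D := by
  obtain ⟨e, he⟩ := hE
  have h1 : Metric.infDist w E ≤ D := (Metric.infDist_le_dist_of_mem he).trans (hdiam w e)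
  have h0 : 0 ≤ Metric.infDist w E := Metric.infDist_nonneg
  have h2 : Metric.infDist w E ^ 2 + ε ^ 2 ≤ (1 + D) ^ 2 := by nlinarith
  have h3 : 0 < Metric.infDist w E ^ 2 + ε ^ 2 := by positivity
  have h4 : log (Metric.infDist w E ^ 2 + ε ^ 2) ≤ log ((1 + D) ^ 2) := log_le_log h3 h2
  have h5 : log ((1 + D) ^ 2) = 2 * log (1 + D) := by
    rw [log_pow]
    norm_num
  have h6 : log (1 + D) ≤ (1 + D) - 1 := log_le_sub_one_of_pos (by linarith)
  unfold Pool.Agent.H96.AL.lp
  linarith

theorem log_le_lp {E : Set X} (ε : ℝ) {x : X} (h : 0 < Metric.infDist x E) :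
    log (Metric.infDist x E) ≤ lp E ε x := by
  have h1 : log (Metric.infDist x E ^ 2) ≤ log (Metric.infDist x E ^ 2 + ε ^ 2) :=
    log_le_log (by positivity) (by nlinarith [sq_nonneg ε])
  rw [log_pow] at h1
  unfold Pool.Agent.H96.AL.lp
  push_cast at h1
  linarith

theorem mul_lp_ge {E : Set X} (ε : ℝ) {μ : ℝ} {x : X} (h0 : 0 ≤ μ)
    (h2 : μ ≤ Metric.infDist x E) : -1 ≤ μ * lp E ε x := by
  rcases h0.eq_or_lt with h | h
  · rw [← h, zero_mul]
    norm_num
  · have hu : 0 < Metric.infDist x E := h.trans_le h2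
    set u := Metric.infDist x E with hudef
    have h3 := log_le_lp ε hu
    have h4 : μ * log u ≤ μ * lp E ε x := mul_le_mul_of_nonneg_left h3 h0
    refine le_trans ?_ h4
    rcases le_or_gt 1 u with h5 | h5
    · have := mul_nonneg h0 (log_nonneg h5)
      linarith
    · have h6 : log u ≤ 0 := log_nonpos hu.le h5.le
      have h7 : u * log u ≤ μ * log u := mul_le_mul_of_nonpos_right h2 h6
      have h8 : 1 - u⁻¹ ≤ log u := one_sub_inv_le_log_of_pos hu
      have h9 : u * (1 - u⁻¹) ≤ u * log u := mul_le_mul_of_nonneg_left h8 hu.le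
      have h10 : u * (1 - u⁻¹) = u - 1 := by
        rw [mul_sub, mul_one, mul_inv_cancel₀ hu.ne']
      linarith

theorem ne : T_NE := by
  intro X _ D hSp f L L' hL hf m E hE μ ε x hμ hε α hα hα0 t ht i hi hmem
  have hD0 : 0 ≤ D := by linarith [hSp.one_le]
  have h1 := hα.en1 0 t 0 le_rfl ht le_rfl
  rw [hα0] at h1
  have h1' : pert f E μ ε x ≤ pert f E μ ε (α t) := by
    have : (0 : ℝ) * dist x (α t) - 0 ^ 2 / 4 * (t - 0) = 0 := by ring
    linarith
  set w := α t with hw
  have hfw : f w ≤ f x + L * D := by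
    have h2 := hf w x
    have h3 := le_abs_self (f w - f x)
    have h4 : L * dist w x ≤ L * D := mul_le_mul_of_nonneg_left (hSp.diam w x) hL
    linarith
  have hui : 0 < Metric.infDist x (E i) := hi.trans_le (hμ i).2.2.1
  have hεi := (hμ i).2.2.2.1
  -- the value of the potential at `w`
  have hlw : lp (E i) (ε i) w = log (ε i) := by
    unfold Pool.Agent.H96.AL.lp
    rw [Metric.infDist_zero_of_mem hmem]
    have : (0 : ℝ) ^ 2 + ε i ^ 2 = ε i ^ 2 := by ring
    rw [this, log_pow]
    push_cast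
    ring
  have hup : ∑ j, μ j * lp (E j) (ε j) w ≤ μ i * log (ε i) + m * D := by
    rw [← Finset.add_sum_erase _ _ (Finset.mem_univ i), hlw]
    have h5 : ∑ j ∈ Finset.univ.erase i, μ j * lp (E j) (ε j) w ≤
        ∑ j ∈ Finset.univ.erase i, D := by
      refine Finset.sum_le_sum fun j _ => ?_
      have h6 := lp_le hD0 hSp.diam (hE j).2 (hμ j).2.2.2.1 (hμ j).2.2.2.2 w
      calc μ j * lp (E j) (ε j) w ≤ μ j * D := mul_le_mul_of_nonneg_left h6 (hμ j).1
        _ ≤ 1 * D := mul_le_mul_of_nonneg_right (hμ j).2.1 hD0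
        _ = D := one_mul D
    have h7 : ∑ j ∈ Finset.univ.erase i, D ≤ m * D := by
      rw [Finset.sum_const, nsmul_eq_mul]
      refine mul_le_mul_of_nonneg_right ?_ hD0
      have h8 : (Finset.univ.erase i).card ≤ m := by
        refine (Finset.card_le_card (Finset.erase_subset _ _)).trans ?_
        rw [Finset.card_univ, Fintype.card_fin]
      exact_mod_cast h8
    linarith
  have hlo : μ i * log (Metric.infDist x (E i)) - m ≤ ∑ j, μ j * lp (E j) (ε j) x := by
    rw [← Finset.add_sum_erase _ _ (Finset.mem_univ i)]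
    have h5 : ∑ j ∈ Finset.univ.erase i, (-1 : ℝ) ≤
        ∑ j ∈ Finset.univ.erase i, μ j * lp (E j) (ε j) x :=
      Finset.sum_le_sum fun j _ => mul_lp_ge (ε j) (hμ j).1 (hμ j).2.2.1
    have h7 : -(m : ℝ) ≤ ∑ j ∈ Finset.univ.erase i, (-1 : ℝ) := by
      rw [Finset.sum_const, nsmul_eq_mul]
      have h8 : (Finset.univ.erase i).card ≤ m := by
        refine (Finset.card_le_card (Finset.erase_subset _ _)).trans ?_
        rw [Finset.card_univ, Fintype.card_fin]
      have h9 : ((Finset.univ.erase i).card : ℝ) ≤ m := by exact_mod_cast h8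
      linarith
    have h6 : μ i * log (Metric.infDist x (E i)) ≤ μ i * lp (E i) (ε i) x :=
      mul_le_mul_of_nonneg_left (log_le_lp (ε i) hui) hi.le
    linarith
  have hmain : μ i * (log (Metric.infDist x (E i)) - log (ε i)) ≤ (L + m) * D + m := by
    unfold pert at h1'
    have : (L + m) * D = L * D + m * D := by ring
    linarith
  have hlog : log (ε i) ≤ log (Metric.infDist x (E i)) + -((L + m) * D + m + 1) / μ i := by
    have h8 := log_le_log hεi (hε i hi)
    rwa [log_mul hui.ne' (exp_pos _).ne', log_exp] at h8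
  have hfin : (L + m) * D + m + 1 ≤ μ i * (log (Metric.infDist x (E i)) - log (ε i)) := by
    have h9 : ((L + m) * D + m + 1) / μ i ≤ log (Metric.infDist x (E i)) - log (ε i) := by
      have : -((L + m) * D + m + 1) / μ i = -(((L + m) * D + m + 1) / μ i) := neg_div _ _
      linarith
    rw [div_le_iff₀ hi] at h9
    linarith
  linarith

end Pool.Agent.H58.AL
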